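import Pool.Agent.Q18.KZ.S1
import Pool.Agent.Q257.KS.FJL

set_option autoImplicit false

/-!
Job KZ-AN (project KZ of helper18): lattice points near a monomial hypersurface.
-/

namespace Pool.Agent.Q237.KZ

open Finset Pool.Agent.Q18.KZ Pool.Agent.H376R2.MR
open scoped Classical

/-- weighted AM-GM with total weight at most one -/
theorem amgm {ι : Type} (J : Finset ι) (w z : ι → ℝ) (hw : ∀ i ∈ J, 0 ≤ w i)
    (hW : ∑ i ∈ J, w i ≤ 1) (hz : ∀ i ∈ J, 0 ≤ z i) :
    ∏ i ∈ J, z i ^ w i ≤ ∑ i ∈ J, w i * z i + (1 - ∑ i ∈ J, w i) := by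
  have h := Real.geom_mean_le_arith_mean_weighted (s := Finset.insertNone J)
    (fun o : Option ι => o.elim (1 - ∑ i ∈ J, w i) w) (fun o : Option ι => o.elim 1 z)
    (by
      intro o ho
      cases o with
      | none => simpa using hW
      | some i => exact hw i (by simpa using ho))
    (by
      rw [Finset.sum_insertNone]
      simp)
    (by
      intro o ho
      cases o with
      | none => simp
      | some i => exact hz i (by simpa using ho))
  rw [Finset.prod_insertNone, Finset.sum_insertNone] at h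
  simp only [Option.elim, Real.one_rpow, one_mul, mul_one] at h
  linarith

/-- Hölder's inequality for a product of several functions -/
theorem holder {ι κ : Type} (J : Finset ι) (F : Finset κ) (K : ℝ) (hK : 0 < K)
    (hF : (F.card : ℝ) ≤ 2 * K) (m : ι → ℕ) (f : ι → κ → ℝ) (M : ι → ℝ)
    (hm : ∀ a ∈ J, 1 ≤ m a) (hW : ∑ a ∈ J, 1 / (2 * (m a : ℝ)) ≤ 1)
    (hf : ∀ a ∈ J, ∀ k ∈ F, 0 ≤ f a k) (hM : ∀ a ∈ J, 0 < M a)
    (hb : ∀ a ∈ J, ∑ k ∈ F, f a k ^ (2 * m a) ≤ M a * K) :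
    ∑ k ∈ F, ∏ a ∈ J, f a k ≤ 2 * K * ∏ a ∈ J, M a ^ (1 / (2 * (m a : ℝ))) := by
  set w : ι → ℝ := fun a => 1 / (2 * (m a : ℝ)) with hw
  have hw0 : ∀ a ∈ J, 0 ≤ w a := fun a _ => by simp only [hw]; positivity
  have hP : 0 ≤ ∏ a ∈ J, M a ^ w a := Finset.prod_nonneg fun a ha =>
    Real.rpow_nonneg (hM a ha).le _
  have h1 : ∀ k ∈ F, ∏ a ∈ J, f a k ≤
      (∏ a ∈ J, M a ^ w a) * (∑ a ∈ J, w a * (f a k ^ (2 * m a) / M a) +
        (1 - ∑ a ∈ J, w a)) := by
    intro k hk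
    have h2 : ∏ a ∈ J, f a k = (∏ a ∈ J, M a ^ w a) *
        ∏ a ∈ J, (f a k ^ (2 * m a) / M a) ^ w a := by
      rw [← Finset.prod_mul_distrib]
      refine Finset.prod_congr rfl fun a ha => ?_
      have hfa := hf a ha k hk
      have hma : (0 : ℝ) < m a := by exact_mod_cast hm a ha
      rw [← Real.mul_rpow (hM a ha).le (div_nonneg (pow_nonneg hfa _) (hM a ha).le),
        mul_div_cancel₀ _ (hM a ha).ne', ← Real.rpow_natCast, ← Real.rpow_mul hfa]
      have : ((2 * m a : ℕ) : ℝ) * w a = 1 := by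
        simp only [hw]
        push_cast
        field_simp
      rw [this, Real.rpow_one]
    rw [h2]
    exact mul_le_mul_of_nonneg_left (amgm J w _ hw0 hW fun a ha =>
      div_nonneg (pow_nonneg (hf a ha k hk) _) (hM a ha).le) hP
  refine (Finset.sum_le_sum h1).trans ?_
  rw [← Finset.mul_sum, Finset.sum_add_distrib, Finset.sum_comm, mul_comm]
  refine mul_le_mul_of_nonneg_right ?_ hP
  have h3 : ∑ a ∈ J, ∑ k ∈ F, w a * (f a k ^ (2 * m a) / M a) ≤ (∑ a ∈ J, w a) * K := by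
    rw [Finset.sum_mul]
    refine Finset.sum_le_sum fun a ha => ?_
    rw [← Finset.mul_sum, ← Finset.sum_div]
    refine mul_le_mul_of_nonneg_left ?_ (hw0 a ha)
    rw [div_le_iff₀ (hM a ha)]
    exact (hb a ha).trans (le_of_eq (mul_comm _ _))
  have h4 : ∑ _k ∈ F, (1 - ∑ a ∈ J, w a) ≤ (1 - ∑ a ∈ J, w a) * (2 * K) := by
    rw [Finset.sum_const, nsmul_eq_mul, mul_comm]
    exact mul_le_mul_of_nonneg_left hF (by linarith)
  have h5 : 0 ≤ ∑ a ∈ J, w a := Finset.sum_nonneg hw0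
  nlinarith [mul_nonneg h5 hK.le]

/-- the exponential sum -/
noncomputable def ES (T e : ℕ) (k : ℤ) : ℝ :=
  ‖∑ t ∈ Ioc T (2 * T), Complex.exp (((k : ℝ) * (e * Real.log t) : ℝ) * Complex.I)‖

theorem ES_nonneg (T e : ℕ) (k : ℤ) : 0 ≤ ES T e k := norm_nonneg _

theorem ES_le (T e : ℕ) (k : ℤ) : ES T e k ≤ T := by
  unfold ES
  refine (norm_sum_le _ _).trans ?_
  have : ∀ t ∈ Ioc T (2 * T), ‖Complex.exp (((k : ℝ) * (e * Real.log t) : ℝ) * Complex.I)‖ ≤ 1 :=
    fun t _ => by rw [Complex.norm_exp_ofReal_mul_I]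
  refine (Finset.sum_le_sum this).trans ?_
  rw [Finset.sum_const, Nat.card_Ioc, nsmul_eq_mul, mul_one]
  have h : 2 * T - T = T := by omega
  rw [h]

theorem card_FK (K : ℕ) : ((FK K).card : ℝ) ≤ 2 * K := by
  unfold FK
  rw [Int.card_Ioo]
  have : ((K : ℤ) - -(K : ℤ) - 1).toNat ≤ 2 * K := by omega
  exact_mod_cast this

theorem Fj_nonneg' (K : ℕ) (u : ℝ) (hK : 1 ≤ K) : 0 ≤ Fj K u := by
  have h := fej_eq_norm K u
  have hK0 : (0 : ℝ) < K := by exact_mod_cast hK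
  by_contra hc
  push Not at hc
  have h1 : (K : ℝ) * Fj K u < 0 := mul_neg_of_pos_of_neg hK0 hc
  rw [h] at h1
  exact absurd h1 (not_lt.2 (by positivity))

/-- counting by the Fejér kernel -/
theorem count_le {A : ℕ} (K s x L : ℕ) (T e : Fin A → ℕ) (hK : 1 ≤ K) (hs : 1 ≤ s)
    (hx : 1 ≤ x) (hLK : L * K ≤ x) :
    (((Fintype.piFinset (fun a => Ioc (T a) (2 * T a))).filter
      (fun t : Fin A → ℕ => s * ∏ a : Fin A, t a ^ e a ∈ Ioc x (x + L))).card : ℝ) ≤
      3 / K * ∑ k ∈ FK K, ∏ a, ES (T a) (e a) k := by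
  have hK0 : (0 : ℝ) < K := by exact_mod_cast hK
  have hx0 : (0 : ℝ) < x := by exact_mod_cast hx
  set P := (Fintype.piFinset (fun a => Ioc (T a) (2 * T a))) with hP
  set u : (Fin A → ℕ) → ℝ := fun t => (Real.log s - Real.log ((x : ℝ) + L)) +
    ∑ a, (e a : ℝ) * Real.log (t a) with hu
  have hpi : Real.pi ^ 2 ≤ 12 := by
    have := Real.pi_lt_d2
    nlinarith [Real.pi_pos]
  have h1 : ∀ t ∈ P.filter (fun t : Fin A → ℕ => s * ∏ a : Fin A, t a ^ e a ∈ Ioc x (x + L)),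
      (K : ℝ) / 3 ≤ Fj K (u t) := by
    intro t ht
    rw [Finset.mem_filter, Finset.mem_Ioc] at ht
    obtain ⟨ht1, ht2, ht3⟩ := ht
    have htp : ∀ a, (0 : ℝ) < t a := by
      intro a
      have := Fintype.mem_piFinset.1 ht1 a
      rw [Finset.mem_Ioc] at this
      exact_mod_cast (by omega : 0 < t a)
    set n : ℕ := s * ∏ a : Fin A, t a ^ e a with hn
    have hn0 : (0 : ℝ) < n := by exact_mod_cast (by omega : 0 < n)
    have hlog : Real.log n = Real.log s + ∑ a, (e a : ℝ) * Real.log (t a) := by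
      rw [hn]
      push_cast
      rw [Real.log_mul (by positivity) (Finset.prod_ne_zero_iff.2 fun a _ =>
        pow_ne_zero _ (htp a).ne'), Real.log_prod (fun a _ => pow_ne_zero _ (htp a).ne')]
      congr 1
      refine Finset.sum_congr rfl fun a _ => ?_
      rw [Real.log_pow]
    have hue : u t = Real.log n - Real.log ((x : ℝ) + L) := by
      rw [hlog]
      simp only [hu]
      ring
    have hxL : (0 : ℝ) < (x : ℝ) + L := by positivity
    have hle1 : (n : ℝ) ≤ (x : ℝ) + L := by exact_mod_cast ht3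
    have hle2 : (x : ℝ) ≤ n := by exact_mod_cast ht2.le
    have hu1 : u t ≤ 0 := by
      rw [hue]
      have := Real.log_le_log hn0 hle1
      linarith
    have hu2 : -(1 / K) ≤ u t := by
      rw [hue]
      have h3 := Real.log_le_log hx0 hle2
      have h4 : Real.log ((x : ℝ) + L) - Real.log x ≤ L / x := by
        rw [← Real.log_div hxL.ne' hx0.ne']
        have := Real.log_le_sub_one_of_pos (div_pos hxL hx0)
        have h5 : ((x : ℝ) + L) / x - 1 = L / x := by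
          field_simp
          ring
        linarith
      have h6 : (L : ℝ) / x ≤ 1 / K := by
        rw [div_le_div_iff₀ hx0 hK0, one_mul]
        exact_mod_cast hLK
      linarith
    have h7 := Pool.Agent.Q257.KS.fjl K (u t) hK (abs_le.2 ⟨hu2, hu1.trans (by positivity)⟩)
    refine le_trans ?_ h7
    have : 1 / 3 ≤ 4 / Real.pi ^ 2 := by
      rw [div_le_div_iff₀ (by norm_num) (by positivity)]
      linarith
    nlinarith
  set N := (P.filter (fun t : Fin A → ℕ => s * ∏ a : Fin A, t a ^ e a ∈ Ioc x (x + L))) with hN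
  have h2 : (N.card : ℝ) * (K / 3) ≤ ∑ t ∈ P, Fj K (u t) := by
    calc (N.card : ℝ) * (K / 3) = ∑ _t ∈ N, (K : ℝ) / 3 := by
          rw [Finset.sum_const, nsmul_eq_mul]
      _ ≤ ∑ t ∈ N, Fj K (u t) := Finset.sum_le_sum h1
      _ ≤ ∑ t ∈ P, Fj K (u t) := Finset.sum_le_sum_of_subset_of_nonneg (Finset.filter_subset _ _)
          fun t _ _ => Fj_nonneg' K _ hK
  have h3 : ∑ t ∈ P, Fj K (u t) ≤ ∑ k ∈ FK K, ∏ a, ES (T a) (e a) k := by
    unfold Fj
    rw [Finset.sum_comm]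
    refine Finset.sum_le_sum fun k hk => ?_
    rw [← Finset.mul_sum]
    have hk1 : |(k : ℝ)| ≤ K := by
      have : -(K : ℤ) < k ∧ k < K := by simpa [FK] using hk
      rw [abs_le]
      constructor
      · exact_mod_cast this.1.le
      · exact_mod_cast this.2.le
    have h4 : ‖∑ t ∈ P, Complex.exp (((k : ℝ) * u t : ℝ) * Complex.I)‖ =
        ∏ a, ES (T a) (e a) k := by
      have h5 : ∀ t ∈ P, Complex.exp (((k : ℝ) * u t : ℝ) * Complex.I) =
          Complex.exp (((k : ℝ) * (Real.log s - Real.log ((x : ℝ) + L)) : ℝ) * Complex.I) *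
          ∏ a, Complex.exp (((k : ℝ) * (e a * Real.log (t a)) : ℝ) * Complex.I) := by
        intro t _
        rw [← Complex.exp_sum, ← Complex.exp_add]
        congr 1
        rw [← Finset.sum_mul, ← add_mul]
        congr 1
        simp only [hu]
        push_cast
        rw [mul_add, Finset.mul_sum]
      rw [Finset.sum_congr rfl h5, ← Finset.mul_sum, norm_mul, Complex.norm_exp_ofReal_mul_I,
        one_mul, hP]
      unfold ES
      rw [← norm_prod, Finset.prod_univ_sum]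
    have h6 : ∑ t ∈ P, Real.cos (k * u t) ≤ ∏ a, ES (T a) (e a) k := by
      rw [← h4]
      refine le_trans (le_of_eq ?_) (Complex.re_le_norm _)
      rw [Complex.re_sum]
      refine Finset.sum_congr rfl fun t _ => ?_
      rw [Complex.exp_ofReal_mul_I_re]
    have h7 : 0 ≤ ∏ a, ES (T a) (e a) k := Finset.prod_nonneg fun a _ => ES_nonneg _ _ _
    have h8 : 0 ≤ 1 - |(k : ℝ)| / K := by
      rw [sub_nonneg, div_le_one hK0]
      exact hk1
    have h9 : 1 - |(k : ℝ)| / K ≤ 1 := by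
      have : 0 ≤ |(k : ℝ)| / K := by positivity
      linarith
    calc (1 - |(k : ℝ)| / K) * ∑ t ∈ P, Real.cos (k * u t) ≤
          (1 - |(k : ℝ)| / K) * ∏ a, ES (T a) (e a) k := mul_le_mul_of_nonneg_left h6 h8
      _ ≤ 1 * ∏ a, ES (T a) (e a) k := mul_le_mul_of_nonneg_right h9 h7
      _ = _ := one_mul _
  have h4 := h2.trans h3
  rw [div_mul_eq_mul_div, le_div_iff₀ hK0]
  linarith

theorem t_AN (h1 : S_MO) : S_AN := by
  intro A E ε hε
  -- the threshold
  obtain ⟨M, hM⟩ := exists_nat_gt (2 * (A : ℝ) / ε)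
  have hM1 : 1 ≤ M := by
    by_contra hc
    have : M = 0 := by omega
    subst this
    have : (0 : ℝ) ≤ 2 * (A : ℝ) / ε := by positivity
    simp only [Nat.cast_zero] at hM
    linarith
  have hM0 : (0 : ℝ) < M := by exact_mod_cast hM1
  have hAM : (A : ℝ) / M ≤ ε / 2 := by
    rw [div_lt_iff₀ hε] at hM
    rw [div_le_div_iff₀ hM0 (by norm_num)]
    linarith
  -- the constants
  have hC : ∀ m a : ℕ, ∃ C : ℝ, 1 ≤ C ∧ (1 ≤ m → 1 ≤ a → ∀ (K T : ℕ) (W : Finset ℕ), 1 ≤ K →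
      1 ≤ T → W ⊆ Ioc T (2 * T) →
      ∑ k ∈ FK K, ‖∑ t ∈ W, Complex.exp (((k : ℝ) * (a * Real.log t) : ℝ) * Complex.I)‖ ^ (2 * m) ≤
        C * ((K : ℝ) + (T : ℝ) ^ m) * (T : ℝ) ^ m * (T : ℝ) ^ ε) := by
    intro m a
    by_cases hma : 1 ≤ m ∧ 1 ≤ a
    · obtain ⟨C, hC1, hC2⟩ := h1 m a ε hma.1 hma.2 hε
      exact ⟨C, hC1, fun _ _ => hC2⟩
    · exact ⟨1, le_rfl, fun h h' => absurd ⟨h, h'⟩ hma⟩
  choose Cf hCf1 hCf2 using hC
  set C₀ : ℝ := ∑ m ∈ range (M + 1), ∑ a ∈ range (E + 1), Cf m a + 1 with hC₀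
  have hle : ∀ m a : ℕ, m ≤ M → a ≤ E → Cf m a ≤ C₀ := by
    intro m a hm ha
    have h2 : Cf m a ≤ ∑ a ∈ range (E + 1), Cf m a :=
      Finset.single_le_sum (f := fun a => Cf m a) (fun a _ => by linarith [hCf1 m a])
        (by simp; omega)
    have h3 : ∑ a ∈ range (E + 1), Cf m a ≤ ∑ m ∈ range (M + 1), ∑ a ∈ range (E + 1), Cf m a :=
      Finset.single_le_sum (f := fun m => ∑ a ∈ range (E + 1), Cf m a)
        (fun m _ => Finset.sum_nonneg fun a _ => by linarith [hCf1 m a]) (by simp; omega)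
    rw [hC₀]
    linarith
  have hC₀1 : 1 ≤ C₀ := by
    rw [hC₀]
    have : 0 ≤ ∑ m ∈ range (M + 1), ∑ a ∈ range (E + 1), Cf m a :=
      Finset.sum_nonneg fun m _ => Finset.sum_nonneg fun a _ => by linarith [hCf1 m a]
    linarith
  refine ⟨6 * (2 * C₀) ^ A, ?_, ?_⟩
  · have : (1 : ℝ) ≤ (2 * C₀) ^ A := one_le_pow₀ (by linarith)
    linarith
  intro K s x L T e hK hs hx hT he hprod hLK
  have hK0 : (0 : ℝ) < K := by exact_mod_cast hK
  have hK1 : (1 : ℝ) ≤ K := by exact_mod_cast hK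
  have hT0 : ∀ a, (0 : ℝ) < T a := fun a => by exact_mod_cast hT a
  have hT1 : ∀ a, (1 : ℝ) ≤ T a := fun a => by exact_mod_cast hT a
  refine (count_le K s x L T e hK hs hx hLK).trans ?_
  -- the large factors
  set J : Finset (Fin A) := Finset.univ.filter (fun a => K < T a ^ M) with hJ
  have hTK : ∀ a, T a ≤ K := by
    intro a
    refine le_trans ?_ hprod
    exact Nat.le_of_dvd (Finset.prod_pos fun a _ => hT a) (Finset.dvd_prod_of_mem _ (mem_univ a))
  have hT2 : ∀ a ∈ J, 2 ≤ T a := by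
    intro a ha
    rw [hJ, Finset.mem_filter] at ha
    by_contra hc
    have : T a = 1 := by have := hT a; omega
    rw [this, one_pow] at ha
    omega
  set m : Fin A → ℕ := fun a => Nat.log (T a) K with hm
  have hm1 : ∀ a ∈ J, 1 ≤ m a := fun a ha =>
    Nat.log_pos (by have := hT2 a ha; omega) (hTK a)
  have hmK : ∀ a ∈ J, T a ^ m a ≤ K := fun a ha => Nat.pow_log_le_self _ (by omega)
  have hmK2 : ∀ a ∈ J, K < T a ^ (m a + 1) := fun a ha =>
    Nat.lt_pow_succ_log_self (by have := hT2 a ha; omega) _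
  have hmM : ∀ a ∈ J, m a ≤ M := by
    intro a ha
    by_contra hc
    have h2 : T a ^ M ≤ T a ^ m a := Nat.pow_le_pow_right (by have := hT2 a ha; omega) (by omega)
    have h3 := hmK a ha
    have h4 : K < T a ^ M := (Finset.mem_filter.1 ha).2
    omega
  have hlogK : 0 ≤ Real.log K := Real.log_nonneg hK1
  have hW : ∑ a ∈ J, 1 / (2 * (m a : ℝ)) ≤ 1 := by
    rcases J.eq_empty_or_nonempty with hJe | ⟨a₀, ha₀⟩
    · rw [hJe]; simp
    have hK2 : (2 : ℝ) ≤ K := by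
      have := hT2 a₀ ha₀
      have := hTK a₀
      exact_mod_cast (by omega : 2 ≤ K)
    have hlogK' : 0 < Real.log K := Real.log_pos (by linarith)
    have h2 : ∀ a ∈ J, 1 / (2 * (m a : ℝ)) * Real.log K ≤ Real.log (T a) := by
      intro a ha
      have h3 : Real.log K ≤ (m a + 1 : ℝ) * Real.log (T a) := by
        have h4 : (K : ℝ) ≤ (T a : ℝ) ^ (m a + 1) := by exact_mod_cast (hmK2 a ha).le
        have h5 := Real.log_le_log hK0 h4
        rw [Real.log_pow] at h5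
        push_cast at h5
        exact h5
      have h4 : (1 : ℝ) ≤ m a := by exact_mod_cast hm1 a ha
      have h5 : 0 ≤ Real.log (T a) := Real.log_nonneg (hT1 a)
      rw [div_mul_eq_mul_div, one_mul, div_le_iff₀ (by positivity)]
      nlinarith
    have h3 : (∑ a ∈ J, 1 / (2 * (m a : ℝ))) * Real.log K ≤ Real.log K := by
      rw [Finset.sum_mul]
      calc ∑ a ∈ J, 1 / (2 * (m a : ℝ)) * Real.log K ≤ ∑ a ∈ J, Real.log (T a) :=
            Finset.sum_le_sum h2
        _ ≤ ∑ a, Real.log (T a) := Finset.sum_le_univ_sum_of_nonneg fun a =>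
            Real.log_nonneg (hT1 a)
        _ = Real.log (∏ a, (T a : ℝ)) := (Real.log_prod fun a _ => (hT0 a).ne').symm
        _ ≤ Real.log K := by
            refine Real.log_le_log (Finset.prod_pos fun a _ => hT0 a) ?_
            exact_mod_cast hprod
    by_contra hc
    push Not at hc
    nlinarith
  -- the Hölder part
  have hhol := holder J (FK K) K hK0 (card_FK K) m (fun a k => ES (T a) (e a) k)
    (fun a => 2 * C₀ * ((T a : ℝ) ^ m a * (T a : ℝ) ^ ε)) hm1 hW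
    (fun a _ k _ => ES_nonneg _ _ _)
    (fun a _ => by
      have := hT0 a
      positivity)
    (fun a ha => by
      have h2 := hCf2 (m a) (e a) (hm1 a ha) (he a).1 K (T a) (Ioc (T a) (2 * T a)) hK (hT a)
        (Finset.Subset.refl _)
      refine (le_of_eq ?_).trans (h2.trans ?_)
      · rfl
      have h3 : Cf (m a) (e a) ≤ C₀ := hle _ _ (hmM a ha) (he a).2
      have h4 : (T a : ℝ) ^ m a ≤ K := by exact_mod_cast hmK a ha
      have h5 : (0 : ℝ) < (T a : ℝ) ^ m a := pow_pos (hT0 a) _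
      have h6 : (0 : ℝ) < (T a : ℝ) ^ ε := Real.rpow_pos_of_pos (hT0 a) _
      have h7 : 0 < Cf (m a) (e a) := by linarith [hCf1 (m a) (e a)]
      calc Cf (m a) (e a) * ((K : ℝ) + (T a : ℝ) ^ m a) * (T a : ℝ) ^ m a * (T a : ℝ) ^ ε
          ≤ C₀ * (K + K) * (T a : ℝ) ^ m a * (T a : ℝ) ^ ε := by gcongr
        _ = 2 * C₀ * ((T a : ℝ) ^ m a * (T a : ℝ) ^ ε) * K := by ring)
  have hfac : ∀ a ∈ J, (2 * C₀ * ((T a : ℝ) ^ m a * (T a : ℝ) ^ ε)) ^ (1 / (2 * (m a : ℝ))) ≤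
      2 * C₀ * ((T a : ℝ) ^ (1 / 2 : ℝ) * (T a : ℝ) ^ (ε / 2)) := by
    intro a ha
    have hma : (1 : ℝ) ≤ m a := by exact_mod_cast hm1 a ha
    have hma0 : (0 : ℝ) < m a := by linarith
    have hw1 : 1 / (2 * (m a : ℝ)) ≤ 1 / 2 := by
      rw [div_le_div_iff₀ (by positivity) (by norm_num)]
      linarith
    have hw0 : 0 ≤ 1 / (2 * (m a : ℝ)) := by positivity
    have hT := hT0 a
    rw [Real.mul_rpow (by positivity) (by positivity),
      Real.mul_rpow (x := (T a : ℝ) ^ m a) (by positivity) (by positivity)]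
    have e1 : (2 * C₀) ^ (1 / (2 * (m a : ℝ))) ≤ 2 * C₀ := by
      calc (2 * C₀) ^ (1 / (2 * (m a : ℝ))) ≤ (2 * C₀) ^ (1 : ℝ) :=
            Real.rpow_le_rpow_of_exponent_le (by linarith) (by linarith)
        _ = _ := Real.rpow_one _
    have e2 : ((T a : ℝ) ^ m a) ^ (1 / (2 * (m a : ℝ))) = (T a : ℝ) ^ (1 / 2 : ℝ) := by
      rw [← Real.rpow_natCast, ← Real.rpow_mul hT.le]
      congr 1
      field_simp
    have e3 : ((T a : ℝ) ^ ε) ^ (1 / (2 * (m a : ℝ))) ≤ (T a : ℝ) ^ (ε / 2) := by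
      rw [← Real.rpow_mul hT.le]
      refine Real.rpow_le_rpow_of_exponent_le (hT1 a) ?_
      nlinarith
    rw [e2]
    gcongr
  -- the product over the small factors
  have hsplit : ∀ k, ∏ a, ES (T a) (e a) k ≤ (K : ℝ) ^ (ε / 2) * ∏ a ∈ J, ES (T a) (e a) k := by
    intro k
    have hc : ∏ a, ES (T a) (e a) k =
        (∏ a ∈ Jᶜ, ES (T a) (e a) k) * ∏ a ∈ J, ES (T a) (e a) k :=
      (Finset.prod_compl_mul_prod J _).symm
    rw [hc]
    refine mul_le_mul_of_nonneg_right ?_ (Finset.prod_nonneg fun a _ => ES_nonneg _ _ _)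
    have h2 : ∀ a ∈ Jᶜ, ES (T a) (e a) k ≤ (K : ℝ) ^ (1 / (M : ℝ)) := by
      intro a ha
      refine (ES_le _ _ _).trans ?_
      have h3 : T a ^ M ≤ K := by
        rw [hJ] at ha
        simpa using ha
      have h4 : ((T a : ℝ)) ^ M ≤ K := by exact_mod_cast h3
      calc (T a : ℝ) = ((T a : ℝ) ^ M) ^ (1 / (M : ℝ)) := by
            rw [← Real.rpow_natCast, ← Real.rpow_mul (hT0 a).le]
            rw [mul_one_div_cancel hM0.ne', Real.rpow_one]
        _ ≤ (K : ℝ) ^ (1 / (M : ℝ)) :=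
            Real.rpow_le_rpow (by have := hT0 a; positivity) h4 (by positivity)
    calc ∏ a ∈ Jᶜ, ES (T a) (e a) k ≤ ∏ _a ∈ Jᶜ, (K : ℝ) ^ (1 / (M : ℝ)) :=
          Finset.prod_le_prod (fun a _ => ES_nonneg _ _ _) h2
      _ = ((K : ℝ) ^ (1 / (M : ℝ))) ^ (Jᶜ).card := by rw [Finset.prod_const]
      _ ≤ ((K : ℝ) ^ (1 / (M : ℝ))) ^ A := by
          refine pow_le_pow_right₀ (Real.one_le_rpow hK1 (by positivity)) ?_
          refine (Finset.card_le_univ _).trans ?_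
          simp
      _ = (K : ℝ) ^ ((A : ℝ) / M) := by
          rw [← Real.rpow_natCast, ← Real.rpow_mul hK0.le]
          congr 1
          field_simp
      _ ≤ (K : ℝ) ^ (ε / 2) := Real.rpow_le_rpow_of_exponent_le hK1 hAM
  have hprodJ : ∏ a ∈ J, (T a : ℝ) ≤ ∏ a, (T a : ℝ) := by
    have h2 : ∏ a ∈ J, T a ≤ ∏ a, T a := Nat.le_of_dvd (Finset.prod_pos fun a _ => hT a)
      (Finset.prod_dvd_prod_of_subset _ _ _ (Finset.subset_univ J))
    exact_mod_cast h2
  have hprodR : ∏ a, (T a : ℝ) ≤ K := by exact_mod_cast hprod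
  have hJ0 : 0 < ∏ a ∈ J, (T a : ℝ) := Finset.prod_pos fun a _ => hT0 a
  have hJprod : ∏ a ∈ J, (2 * C₀ * ((T a : ℝ) ^ m a * (T a : ℝ) ^ ε)) ^ (1 / (2 * (m a : ℝ))) ≤
      (2 * C₀) ^ A * (Real.sqrt (((∏ a, T a : ℕ) : ℝ)) * (K : ℝ) ^ (ε / 2)) := by
    calc _ ≤ ∏ a ∈ J, (2 * C₀ * ((T a : ℝ) ^ (1 / 2 : ℝ) * (T a : ℝ) ^ (ε / 2))) :=
          Finset.prod_le_prod (fun a _ => by have := hT0 a; positivity) hfac
      _ = (2 * C₀) ^ J.card * ((∏ a ∈ J, (T a : ℝ)) ^ (1 / 2 : ℝ) *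
            (∏ a ∈ J, (T a : ℝ)) ^ (ε / 2)) := by
          rw [Finset.prod_mul_distrib, Finset.prod_const, Finset.prod_mul_distrib,
            Real.finsetProd_rpow J _ fun a _ => (hT0 a).le,
            Real.finsetProd_rpow J _ fun a _ => (hT0 a).le]
      _ ≤ (2 * C₀) ^ A * (Real.sqrt (((∏ a, T a : ℕ) : ℝ)) * (K : ℝ) ^ (ε / 2)) := by
          have e1 : (2 * C₀) ^ J.card ≤ (2 * C₀) ^ A := by
            refine pow_le_pow_right₀ (by linarith) ?_
            refine (Finset.card_le_univ _).trans ?_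
            simp
          have e2 : (∏ a ∈ J, (T a : ℝ)) ^ (1 / 2 : ℝ) ≤ Real.sqrt (((∏ a, T a : ℕ) : ℝ)) := by
            rw [Real.sqrt_eq_rpow]
            refine Real.rpow_le_rpow hJ0.le ?_ (by norm_num)
            push_cast
            exact hprodJ
          have e3 : (∏ a ∈ J, (T a : ℝ)) ^ (ε / 2) ≤ (K : ℝ) ^ (ε / 2) :=
            Real.rpow_le_rpow hJ0.le (hprodJ.trans hprodR) (by positivity)
          gcongr
  have hsum : ∑ k ∈ FK K, ∏ a, ES (T a) (e a) k ≤ (K : ℝ) ^ (ε / 2) *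
      (2 * K * ((2 * C₀) ^ A * (Real.sqrt (((∏ a, T a : ℕ) : ℝ)) * (K : ℝ) ^ (ε / 2)))) := by
    calc _ ≤ ∑ k ∈ FK K, (K : ℝ) ^ (ε / 2) * ∏ a ∈ J, ES (T a) (e a) k :=
          Finset.sum_le_sum fun k _ => hsplit k
      _ = (K : ℝ) ^ (ε / 2) * ∑ k ∈ FK K, ∏ a ∈ J, ES (T a) (e a) k := by rw [Finset.mul_sum]
      _ ≤ _ := by
          refine mul_le_mul_of_nonneg_left ?_ (by positivity)
          exact hhol.trans (mul_le_mul_of_nonneg_left hJprod (by positivity))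
  calc 3 / (K : ℝ) * ∑ k ∈ FK K, ∏ a, ES (T a) (e a) k ≤ 3 / (K : ℝ) * ((K : ℝ) ^ (ε / 2) *
      (2 * K * ((2 * C₀) ^ A * (Real.sqrt (((∏ a, T a : ℕ) : ℝ)) * (K : ℝ) ^ (ε / 2))))) :=
        mul_le_mul_of_nonneg_left hsum (by positivity)
    _ = 6 * (2 * C₀) ^ A * ((K : ℝ) ^ (ε / 2) * (K : ℝ) ^ (ε / 2)) *
          Real.sqrt (((∏ a, T a : ℕ) : ℝ)) := by
        field_simp
        ring
    _ = 6 * (2 * C₀) ^ A * (K : ℝ) ^ ε * Real.sqrt (((∏ a, T a : ℕ) : ℝ)) := by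
        rw [← Real.rpow_add hK0]
        congr 3
        ring

end Pool.Agent.Q237.KZ
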