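import Pool.Agent.Q237.KZ.Parts

set_option autoImplicit false

/-!
Job KZ-RC (project KZ of helper18): the counting inequality for `n / rad n`.
-/

namespace Pool.Agent.Q237.KZ

open Finset Pool.Agent.Q18.KZ
open scoped Classical

/-- the multiples of `d` in an interval -/
theorem card_mult (x L d : ℕ) (hd : 1 ≤ d) :
    (((Ioc x (x + L)).filter (fun n => d ∣ n)).card : ℝ) ≤ L / d + 1 := by
  have h1 : ((Ioc x (x + L)).filter (fun n => d ∣ n)).card ≤
      (Ioc (x / d) ((x + L) / d)).card := by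
    refine Finset.card_le_card_of_injOn (fun n => n / d) ?_ ?_
    · intro n hn
      have hn' : n ∈ (Ioc x (x + L)).filter (fun n => d ∣ n) := hn
      rw [Finset.mem_filter, Finset.mem_Ioc] at hn'
      obtain ⟨⟨h2, h3⟩, k, rfl⟩ := hn'
      show d * k / d ∈ ((Ioc (x / d) ((x + L) / d) : Finset ℕ) : Set ℕ)
      rw [Finset.mem_coe, Finset.mem_Ioc, Nat.mul_div_cancel_left _ hd,
        Nat.div_lt_iff_lt_mul hd, Nat.le_div_iff_mul_le hd]
      constructor
      · linarith [mul_comm d k]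
      · linarith [mul_comm d k]
    · intro n hn m hm hnm
      have hn' : n ∈ (Ioc x (x + L)).filter (fun n => d ∣ n) := hn
      have hm' : m ∈ (Ioc x (x + L)).filter (fun n => d ∣ n) := hm
      rw [Finset.mem_filter] at hn' hm'
      obtain ⟨-, k, rfl⟩ := hn'
      obtain ⟨-, l, rfl⟩ := hm'
      have h2 : d * k / d = d * l / d := hnm
      rw [Nat.mul_div_cancel_left _ hd, Nat.mul_div_cancel_left _ hd] at h2
      rw [h2]
  rw [Nat.card_Ioc] at h1
  have h2 : (x + L) / d ≤ x / d + L / d + 1 := by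
    have h3 : (x + L) / d < x / d + L / d + 1 + 1 := by
      rw [Nat.div_lt_iff_lt_mul hd]
      have h4 := Nat.lt_div_mul_add (a := x) hd
      have h5 := Nat.lt_div_mul_add (a := L) hd
      nlinarith
    omega
  have h3 : ((Ioc x (x + L)).filter (fun n => d ∣ n)).card ≤ L / d + 1 := by
    refine h1.trans ?_
    rw [Nat.sub_le_iff_le_add]
    linarith
  calc (((Ioc x (x + L)).filter (fun n => d ∣ n)).card : ℝ) ≤ ((L / d + 1 : ℕ) : ℝ) := by
        exact_mod_cast h3
    _ ≤ L / d + 1 := by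
        push_cast
        have := @Nat.cast_div_le ℝ _ _ _ L d
        linarith

theorem dec2 {n : ℕ} (hn : n ≠ 0) : sp 2 n * (tp 1 n * tp 2 n ^ 2) = n := by
  have h := sp_mul 2 hn
  rw [Fin.prod_univ_two] at h
  simpa using h

theorem rd2 (n : ℕ) : rd n = rd (sp 2 n) * (tp 1 n * tp 2 n) := by
  have h := rd_eq 2 n
  rw [Fin.prod_univ_two] at h
  simpa using h

theorem class_bound {ε CR C : ℝ} (hε : 0 < ε) (hCR : 1 ≤ CR) (hC : 1 ≤ C)
    (hRAD : ∀ (N : ℕ) (X : ℝ), 1 ≤ N → 0 ≤ X →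
      (((Icc 1 N).filter (fun n => (rd n : ℝ) ≤ X)).card : ℝ) ≤ CR * X * (N : ℝ) ^ ε)
    (hRC : ∀ (x L K : ℕ) (R : ℝ), 1 ≤ x → 1 ≤ K → L * K ≤ x → 1 ≤ R → R ≤ K →
      (((Ioc x (x + L)).filter (fun n => (rd n : ℝ) ≤ R)).card : ℝ) ≤
        C * (x : ℝ) ^ ε * Real.sqrt R)
    {y x L B W G Q : ℕ} (hy : 1 ≤ y) (hyx : y ≤ x) (hx8 : x ≤ 8 * y) (hL : L ^ 2 ≤ y)
    (hB : 1 ≤ B) (hW : 1 ≤ W) (hG : 1 ≤ G) (hQ : 1 ≤ Q) (S : Finset ℕ)
    (hS : S ⊆ Ioc x (x + L)) (hSB : ∀ n ∈ S, B ≤ tp 1 n ∧ tp 1 n < 2 * B)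
    (hSW : ∀ n ∈ S, W ≤ tp 2 n ∧ tp 2 n < 2 * W)
    (hSG : ∀ n ∈ S, G ≤ sp 2 n ∧ sp 2 n < 2 * G)
    (hSQ : ∀ n ∈ S, Q ≤ rd (sp 2 n) ∧ rd (sp 2 n) < 2 * Q) :
    (S.card : ℝ) ^ 2 ≤ 80000 * (CR ^ 2 + C ^ 2) * ((18 * (y : ℝ)) ^ ε) ^ 2 * (B * W * Q) := by
  have hy1 : (1 : ℝ) ≤ y := by exact_mod_cast hy
  have hB1 : (1 : ℝ) ≤ B := by exact_mod_cast hB
  have hW1 : (1 : ℝ) ≤ W := by exact_mod_cast hW
  have hG1 : (1 : ℝ) ≤ G := by exact_mod_cast hG
  have hQ1 : (1 : ℝ) ≤ Q := by exact_mod_cast hQ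
  have hBWQ : (1 : ℝ) ≤ (B : ℝ) * W * Q :=
    one_le_mul_of_one_le_of_one_le (one_le_mul_of_one_le_of_one_le hB1 hW1) hQ1
  set E : ℝ := (18 * (y : ℝ)) ^ ε with hE
  have hE1 : 1 ≤ E := Real.one_le_rpow (by linarith) hε.le
  have hE2 : E ≤ E ^ 2 := by nlinarith
  have hCR2 : CR ≤ CR ^ 2 := by nlinarith
  have hC2 : C ≤ C ^ 2 := by nlinarith
  rcases S.eq_empty_or_nonempty with he | ⟨n₀, hn₀⟩
  · rw [he, Finset.card_empty, Nat.cast_zero]
    have : 0 ≤ 80000 * (CR ^ 2 + C ^ 2) * E ^ 2 * ((B : ℝ) * W * Q) := by positivity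
    simpa using this
  -- basic inequalities
  have hLy : L ≤ y := by nlinarith [Nat.zero_le L]
  have hSn : ∀ n ∈ S, n ≠ 0 ∧ x < n ∧ n ≤ x + L ∧ n ≤ 9 * y := by
    intro n hn
    have := Finset.mem_Ioc.1 (hS hn)
    exact ⟨by omega, this.1, this.2, by omega⟩
  obtain ⟨hn0, hn1, hn2, hn3⟩ := hSn n₀ hn₀
  have hdec := dec2 hn0
  have hlow : y < 16 * (B * W ^ 2 * G) := by
    have h1 : tp 2 n₀ ^ 2 < (2 * W) ^ 2 := Nat.pow_lt_pow_left (hSW n₀ hn₀).2 (by norm_num)
    have h2 : tp 1 n₀ * tp 2 n₀ ^ 2 < (2 * B) * (2 * W) ^ 2 :=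
      Nat.mul_lt_mul'' (hSB n₀ hn₀).2 h1
    have h3 : sp 2 n₀ * (tp 1 n₀ * tp 2 n₀ ^ 2) < (2 * G) * ((2 * B) * (2 * W) ^ 2) :=
      Nat.mul_lt_mul'' (hSG n₀ hn₀).2 h2
    rw [hdec] at h3
    calc y ≤ x := hyx
      _ < n₀ := hn1
      _ < (2 * G) * ((2 * B) * (2 * W) ^ 2) := h3
      _ = 16 * (B * W ^ 2 * G) := by ring
  have hupp : B * W ^ 2 * G ≤ 9 * y := by
    have h1 : W ^ 2 ≤ tp 2 n₀ ^ 2 := Nat.pow_le_pow_left (hSW n₀ hn₀).1 2
    have h2 : B * W ^ 2 ≤ tp 1 n₀ * tp 2 n₀ ^ 2 := Nat.mul_le_mul (hSB n₀ hn₀).1 h1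
    have h3 : G * (B * W ^ 2) ≤ sp 2 n₀ * (tp 1 n₀ * tp 2 n₀ ^ 2) :=
      Nat.mul_le_mul (hSG n₀ hn₀).1 h2
    rw [hdec] at h3
    calc B * W ^ 2 * G = G * (B * W ^ 2) := by ring
      _ ≤ n₀ := h3
      _ ≤ 9 * y := hn3
  have hQG : Q ^ 3 < 2 * G := by
    have h1 : Q ^ 3 ≤ rd (sp 2 n₀) ^ (2 + 1) := Nat.pow_le_pow_left (hSQ n₀ hn₀).1 3
    exact lt_of_le_of_lt (h1.trans (rd_sp_pow 2 n₀)) (hSG n₀ hn₀).2
  have hG9 : G ≤ 9 * y := by
    refine le_trans ?_ hupp
    exact Nat.le_mul_of_pos_left _ (Nat.mul_pos hB (pow_pos hW 2))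
  -- the cube-full parts
  set CC := (Icc 1 (2 * G)).filter (fun n => (rd n : ℝ) ≤ 2 * Q) with hCC
  set κ : ℝ := 2 * CR * E with hκ
  have hκ1 : 1 ≤ κ := by
    have : 1 ≤ CR * E := one_le_mul_of_one_le_of_one_le hCR hE1
    rw [hκ]
    linarith [mul_assoc 2 CR E]
  have hCCc : (CC.card : ℝ) ≤ κ * Q := by
    have h1 := hRAD (2 * G) (2 * Q) (by omega) (by positivity)
    refine h1.trans ?_
    have h2 : (((2 * G : ℕ) : ℝ)) ^ ε ≤ E := by
      refine Real.rpow_le_rpow (by positivity) ?_ hε.le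
      exact_mod_cast (by omega : 2 * G ≤ 18 * y)
    calc CR * (2 * (Q : ℝ)) * (((2 * G : ℕ) : ℝ)) ^ ε ≤ CR * (2 * (Q : ℝ)) * E := by gcongr
      _ = κ * Q := by rw [hκ]; ring
  have hCCm : ∀ n ∈ S, sp 2 n ∈ CC := by
    intro n hn
    rw [hCC, Finset.mem_filter, Finset.mem_Icc]
    refine ⟨⟨sp_pos _ _, (hSG n hn).2.le⟩, ?_⟩
    exact_mod_cast (hSQ n hn).2.le
  -- (a)
  have hLr : ((L : ℝ)) ^ 2 ≤ y := by exact_mod_cast hL
  set N : ℝ := (S.card : ℝ) with hN
  have hN0 : 0 ≤ N := by positivity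
  have ha : N * W ≤ L + (W : ℝ) ^ 2 := by
    have h1 : S ⊆ (Ico W (2 * W)).biUnion fun w => (Ioc x (x + L)).filter (fun n => w ^ 2 ∣ n) := by
      intro n hn
      rw [Finset.mem_biUnion]
      refine ⟨tp 2 n, Finset.mem_Ico.2 (hSW n hn), Finset.mem_filter.2 ⟨hS hn, ?_⟩⟩
      conv_rhs => rw [← dec2 (hSn n hn).1]
      exact Dvd.intro_left (sp 2 n * tp 1 n) (by ring)
    have h2 : N ≤ ∑ w ∈ Ico W (2 * W), ((L : ℝ) / (W : ℝ) ^ 2 + 1) := by
      calc N ≤ ((∑ w ∈ Ico W (2 * W),
            ((Ioc x (x + L)).filter (fun n => w ^ 2 ∣ n)).card : ℕ) : ℝ) := by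
            rw [hN]
            exact_mod_cast (Finset.card_le_card h1).trans Finset.card_biUnion_le
        _ ≤ _ := by
            rw [Nat.cast_sum]
            refine Finset.sum_le_sum fun w hw => ?_
            rw [Finset.mem_Ico] at hw
            have h3 := card_mult x L (w ^ 2) (Nat.pow_pos (by omega))
            refine h3.trans ?_
            have h4 : (W : ℝ) ≤ w := by exact_mod_cast hw.1
            push_cast
            gcongr
    rw [Finset.sum_const, Nat.card_Ico, nsmul_eq_mul] at h2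
    have h3 : (2 * W - W : ℕ) = W := by omega
    rw [h3] at h2
    calc N * W ≤ (W * ((L : ℝ) / (W : ℝ) ^ 2 + 1)) * W := by gcongr
      _ = L + (W : ℝ) ^ 2 := by field_simp
  -- (b)
  have hb : N * G ≤ κ * Q * (L + G) := by
    have h1 : S ⊆ (CC.filter (fun c => G ≤ c)).biUnion fun c =>
        (Ioc x (x + L)).filter (fun n => c ∣ n) := by
      intro n hn
      rw [Finset.mem_biUnion]
      refine ⟨sp 2 n, Finset.mem_filter.2 ⟨hCCm n hn, (hSG n hn).1⟩,
        Finset.mem_filter.2 ⟨hS hn, ?_⟩⟩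
      conv_rhs => rw [← dec2 (hSn n hn).1]
      exact Dvd.intro _ rfl
    have h2 : N ≤ ∑ c ∈ CC.filter (fun c => G ≤ c), ((L : ℝ) / G + 1) := by
      calc N ≤ ((∑ c ∈ CC.filter (fun c => G ≤ c),
            ((Ioc x (x + L)).filter (fun n => c ∣ n)).card : ℕ) : ℝ) := by
            rw [hN]
            exact_mod_cast (Finset.card_le_card h1).trans Finset.card_biUnion_le
        _ ≤ _ := by
            rw [Nat.cast_sum]
            refine Finset.sum_le_sum fun c hc => ?_
            have h5 := (Finset.mem_filter.1 hc).2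
            have h3 := card_mult x L c (by omega)
            refine h3.trans ?_
            have h4 : (G : ℝ) ≤ c := by exact_mod_cast h5
            gcongr
    rw [Finset.sum_const, nsmul_eq_mul] at h2
    have h3 : ((CC.filter (fun c => G ≤ c)).card : ℝ) ≤ κ * Q :=
      le_trans (by exact_mod_cast Finset.card_filter_le _ _) hCCc
    calc N * G ≤ ((κ * Q) * ((L : ℝ) / G + 1)) * G := by
          refine mul_le_mul_of_nonneg_right (h2.trans ?_) (by positivity)
          exact mul_le_mul_of_nonneg_right h3 (by positivity)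
      _ = κ * Q * (L + G) := by field_simp
  -- (c)
  have hc : N ≤ B * (κ * Q) := by
    have hinj : ∀ n ∈ S, ∀ n' ∈ S, tp 1 n = tp 1 n' → sp 2 n = sp 2 n' →
        ¬ tp 2 n < tp 2 n' := by
      intro n hn n' hn' h1 h2 h3
      obtain ⟨h4, h5, h6, -⟩ := hSn n hn
      obtain ⟨h7, h8, h9, -⟩ := hSn n' hn'
      have e1 := dec2 h4
      have e2 := dec2 h7
      rw [← h1, ← h2] at e2
      set cb := sp 2 n * tp 1 n with hcb
      set w := tp 2 n with hw
      set w' := tp 2 n' with hw'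
      have hcb1 : 1 ≤ cb := Nat.mul_pos (sp_pos _ _) (tp_pos _ _)
      have e1' : cb * w ^ 2 = n := by rw [hcb, mul_assoc]; exact e1
      have e2' : cb * w' ^ 2 = n' := by rw [hcb, mul_assoc]; exact e2
      have h10 : (w + 1) ^ 2 ≤ w' ^ 2 := Nat.pow_le_pow_left h3 2
      have h11 : cb * (w + 1) ^ 2 ≤ n' := by rw [← e2']; exact Nat.mul_le_mul_left _ h10
      have h12 : n + cb * w ≤ n' := by
        calc n + cb * w ≤ cb * w ^ 2 + cb * (2 * w + 1) := by rw [e1']; gcongr; omega
          _ = cb * (w + 1) ^ 2 := by ring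
          _ ≤ n' := h11
      have h13 : cb * w < L := by omega
      have h14 : (cb * w) ^ 2 < L ^ 2 := Nat.pow_lt_pow_left h13 (by norm_num)
      have h15 : n ≤ (cb * w) ^ 2 := by
        calc n = 1 * (cb * w ^ 2) := by rw [e1', one_mul]
          _ ≤ cb * (cb * w ^ 2) := Nat.mul_le_mul_right _ hcb1
          _ = (cb * w) ^ 2 := by ring
      omega
    have h1 : S.card ≤ (Ico B (2 * B) ×ˢ CC).card := by
      refine Finset.card_le_card_of_injOn (fun n => (tp 1 n, sp 2 n)) ?_ ?_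
      · intro n hn
        have hn' : n ∈ S := hn
        show (tp 1 n, sp 2 n) ∈ ((Ico B (2 * B) ×ˢ CC : Finset (ℕ × ℕ)) : Set (ℕ × ℕ))
        rw [Finset.mem_coe, Finset.mem_product]
        exact ⟨Finset.mem_Ico.2 (hSB n hn'), hCCm n hn'⟩
      · intro n hn n' hn' hnn
        have hm : n ∈ S := hn
        have hm' : n' ∈ S := hn'
        have h2 : tp 1 n = tp 1 n' := congrArg Prod.fst hnn
        have h3 : sp 2 n = sp 2 n' := congrArg Prod.snd hnn
        have h4 : tp 2 n = tp 2 n' := by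
          have h5 := hinj n hm n' hm' h2 h3
          have h6 := hinj n' hm' n hm h2.symm h3.symm
          omega
        rw [← dec2 (hSn n hm).1, ← dec2 (hSn n' hm').1, h2, h3, h4]
    rw [Finset.card_product, Nat.card_Ico] at h1
    have h3 : (2 * B - B : ℕ) = B := by omega
    rw [h3] at h1
    calc N ≤ ((B * CC.card : ℕ) : ℝ) := by rw [hN]; exact_mod_cast h1
      _ ≤ B * (κ * Q) := by
          push_cast
          gcongr
  -- the square root of y
  set Y : ℝ := Real.sqrt y with hY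
  have hY2 : Y ^ 2 = y := Real.sq_sqrt (by positivity)
  have hY0 : 0 ≤ Y := Real.sqrt_nonneg _
  have hLY : (L : ℝ) ≤ Y := Real.le_sqrt_of_sq_le hLr
  have hκE : κ ≤ 2 * (CR ^ 2 + C ^ 2) * E ^ 2 := by
    rw [hκ]
    have h1 : CR * E ≤ CR ^ 2 * E ^ 2 := mul_le_mul hCR2 hE2 (by linarith) (by positivity)
    have h2 : 0 ≤ C ^ 2 * E ^ 2 := by positivity
    nlinarith
  have hκ2 : κ ^ 2 ≤ 4 * (CR ^ 2 + C ^ 2) * E ^ 2 := by
    rw [hκ]
    have h2 : 0 ≤ C ^ 2 * E ^ 2 := by positivity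
    nlinarith
  have hfin : ∀ D : ℝ, D ≤ 80000 * (CR ^ 2 + C ^ 2) * E ^ 2 → N ^ 2 ≤ D * (B * W * Q) →
      N ^ 2 ≤ 80000 * (CR ^ 2 + C ^ 2) * E ^ 2 * (B * W * Q) := by
    intro D hD h
    exact h.trans (mul_le_mul_of_nonneg_right hD (by linarith))
  have hM0 : 0 ≤ (CR ^ 2 + C ^ 2) * E ^ 2 := by positivity
  by_cases h1 : y ≤ W ^ 4
  · -- case 1
    have h2 : Y ≤ (W : ℝ) ^ 2 := by
      rw [hY]
      refine Real.sqrt_le_iff.2 ⟨by positivity, ?_⟩
      have : (y : ℝ) ≤ (W : ℝ) ^ 4 := by exact_mod_cast h1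
      calc (y : ℝ) ≤ (W : ℝ) ^ 4 := this
        _ = ((W : ℝ) ^ 2) ^ 2 := by ring
    have h3 : N ≤ 2 * W := by
      have h4 : N * W ≤ (2 * W) * W := by
        calc N * W ≤ L + (W : ℝ) ^ 2 := ha
          _ ≤ (2 * W) * W := by nlinarith
      exact le_of_mul_le_mul_right h4 (by linarith)
    refine hfin (2 * κ) (by nlinarith) ?_
    calc N ^ 2 = N * N := sq N
      _ ≤ (2 * W) * (B * (κ * Q)) := mul_le_mul h3 hc hN0 (by positivity)
      _ = 2 * κ * (B * W * Q) := by ring
  · push Not at h1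
    have hWY : (W : ℝ) ^ 2 ≤ Y := by
      rw [hY]
      refine Real.le_sqrt_of_sq_le ?_
      have : (W : ℝ) ^ 4 < y := by exact_mod_cast h1
      have e4 : ((W : ℝ) ^ 2) ^ 2 = (W : ℝ) ^ 4 := by ring
      rw [e4]
      exact this.le
    by_cases h2 : G ^ 2 < y
    · -- case 2
      have hGY : (G : ℝ) ≤ Y := by
        rw [hY]
        refine Real.le_sqrt_of_sq_le ?_
        exact_mod_cast h2.le
      have h3 : N * W ≤ 2 * Y := by linarith
      have h4 : N * G ≤ κ * Q * (2 * Y) := by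
        refine hb.trans ?_
        refine mul_le_mul_of_nonneg_left (by linarith) (by positivity)
      have h5 : N ^ 2 * (W * G) ≤ 4 * κ * Q * (16 * (B * W ^ 2 * G)) := by
        calc N ^ 2 * (W * G) = (N * W) * (N * G) := by ring
          _ ≤ (2 * Y) * (κ * Q * (2 * Y)) := mul_le_mul h3 h4 (by positivity) (by positivity)
          _ = 4 * κ * Q * Y ^ 2 := by ring
          _ = 4 * κ * Q * y := by rw [hY2]
          _ ≤ 4 * κ * Q * (16 * (B * W ^ 2 * G)) := by
              have : (y : ℝ) ≤ 16 * ((B : ℝ) * (W : ℝ) ^ 2 * G) := by exact_mod_cast hlow.le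
              gcongr
      have h6 : N ^ 2 * (W * G) ≤ (64 * κ * (B * W * Q)) * (W * G) := by
        calc N ^ 2 * (W * G) ≤ 4 * κ * Q * (16 * (B * W ^ 2 * G)) := h5
          _ = (64 * κ * (B * W * Q)) * (W * G) := by ring
      refine hfin (64 * κ) (by nlinarith) ?_
      exact le_of_mul_le_mul_right h6 (by positivity)
    · -- case 3
      push Not at h2
      have hYG : Y ≤ G := by
        rw [hY]
        refine Real.sqrt_le_iff.2 ⟨by positivity, ?_⟩
        exact_mod_cast h2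
      have h3 : N ≤ 2 * κ * Q := by
        have h4 : N * G ≤ (2 * κ * Q) * G := by
          calc N * G ≤ κ * Q * (L + G) := hb
            _ ≤ κ * Q * (G + G) := by
                have : (L : ℝ) ≤ G := by linarith
                gcongr
            _ = (2 * κ * Q) * G := by ring
        exact le_of_mul_le_mul_right h4 (by linarith)
      by_cases h4 : Q ≤ B * W
      · -- case 3a
        have h5 : (Q : ℝ) ≤ B * W := by exact_mod_cast h4
        refine hfin (4 * κ ^ 2) (by nlinarith) ?_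
        calc N ^ 2 = N * N := sq N
          _ ≤ (2 * κ * Q) * (2 * κ * Q) := mul_le_mul h3 h3 hN0 (by positivity)
          _ = 4 * κ ^ 2 * (Q * Q) := by ring
          _ ≤ 4 * κ ^ 2 * ((B * W) * Q) := by gcongr
          _ = _ := by ring
      · push Not at h4
        -- case 3b
        set r := Nat.sqrt y with hr
        have hr1 : r * r ≤ y := Nat.sqrt_le y
        have hr2 : y < (r + 1) * (r + 1) := Nat.lt_succ_sqrt y
        have hLr' : L ≤ r := by
          rw [hr, Nat.le_sqrt']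
          exact hL
        by_cases h5 : r < 100
        · refine hfin 10000 (by
            have : 1 ≤ (CR ^ 2 + C ^ 2) * E ^ 2 := by
              refine one_le_mul_of_one_le_of_one_le ?_ (by nlinarith)
              nlinarith
            nlinarith) ?_
          have h6 : S.card ≤ L := by
            have := Finset.card_le_card hS
            rw [Nat.card_Ioc] at this
            omega
          have h7 : N ≤ 100 := by
            rw [hN]
            exact_mod_cast (by omega : S.card ≤ 100)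
          nlinarith
        · push Not at h5
          set K : ℕ := 35 * (r + 1) with hK
          set R : ℝ := 8 * (B * W * Q) with hR
          have hR1 : 1 ≤ R := by rw [hR]; linarith
          have hRK : R ≤ K := by
            have h6 : (B * W * Q) ^ 2 ≤ 18 * y := by
              calc (B * W * Q) ^ 2 = (B * W) * ((B * W) * Q ^ 2) := by ring
                _ ≤ (B * W) * (Q * Q ^ 2) := by gcongr
                _ = (B * W) * Q ^ 3 := by ring
                _ ≤ (B * W) * (2 * G) := by gcongr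
                _ = 2 * (B * W * G) := by ring
                _ ≤ 2 * (B * W ^ 2 * G) := by
                    gcongr
                    exact Nat.le_self_pow (by norm_num) W
                _ ≤ 2 * (9 * y) := by gcongr
                _ = 18 * y := by ring
            have h7 : (8 * (B * W * Q)) ^ 2 ≤ (35 * (r + 1)) ^ 2 := by
              calc (8 * (B * W * Q)) ^ 2 = 64 * (B * W * Q) ^ 2 := by ring
                _ ≤ 64 * (18 * y) := by gcongr
                _ ≤ 1225 * ((r + 1) * (r + 1)) := by nlinarith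
                _ = (35 * (r + 1)) ^ 2 := by ring
            have h8 : 8 * (B * W * Q) ≤ 35 * (r + 1) := by
              by_contra hcon
              push Not at hcon
              have := Nat.pow_lt_pow_left hcon (n := 2) (by norm_num)
              omega
            rw [hR, hK]
            exact_mod_cast h8
          set L' := L / 100 + 1 with hL'
          have hLK : L' * K ≤ x := by
            have h6 : 50 * L' ≤ r := by
              rw [hL']
              have h7 : L / 100 ≤ r / 100 := Nat.div_le_div_right hLr'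
              omega
            have h8 : 50 * (L' * K) ≤ 50 * (r * r) := by
              calc 50 * (L' * K) = (50 * L') * (35 * (r + 1)) := by rw [hK]; ring
                _ ≤ r * (35 * (r + 1)) := Nat.mul_le_mul_right _ h6
                _ ≤ r * (50 * r) := Nat.mul_le_mul_left _ (by omega)
                _ = 50 * (r * r) := by ring
            omega
          have hL'pos : 0 < L' := by omega
          have hcov : S ⊆ (range 100).biUnion fun i =>
              (Ioc (x + i * L') (x + i * L' + L')).filter (fun n => (rd n : ℝ) ≤ R) := by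
            intro n hn
            have h7 : x < n := (hSn n hn).2.1
            have h8 : n ≤ x + L := (hSn n hn).2.2.1
            rw [Finset.mem_biUnion]
            have h9 := Nat.div_add_mod (n - x - 1) L'
            have h10 := Nat.mod_lt (n - x - 1) hL'pos
            refine ⟨(n - x - 1) / L', ?_, ?_⟩
            · rw [Finset.mem_range, Nat.div_lt_iff_lt_mul hL'pos]
              omega
            · rw [Finset.mem_filter, Finset.mem_Ioc]
              have h11 : (n - x - 1) / L' * L' = L' * ((n - x - 1) / L') := Nat.mul_comm _ _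
              refine ⟨⟨by omega, by omega⟩, ?_⟩
              rw [rd2 n]
              have h12 := (hSQ n hn).2.le
              have h13 := (hSB n hn).2.le
              have h14 := (hSW n hn).2.le
              have h15 : rd (sp 2 n) * (tp 1 n * tp 2 n) ≤ 8 * (B * W * Q) := by
                calc rd (sp 2 n) * (tp 1 n * tp 2 n) ≤ (2 * Q) * ((2 * B) * (2 * W)) := by gcongr
                  _ = 8 * (B * W * Q) := by ring
              rw [hR]
              exact_mod_cast h15
          have hN2 : N ≤ 100 * (C * E * Real.sqrt R) := by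
            calc N ≤ ((∑ i ∈ range 100, ((Ioc (x + i * L') (x + i * L' + L')).filter
                  (fun n => (rd n : ℝ) ≤ R)).card : ℕ) : ℝ) := by
                  rw [hN]
                  exact_mod_cast (Finset.card_le_card hcov).trans Finset.card_biUnion_le
              _ ≤ ∑ _i ∈ range 100, (C * E * Real.sqrt R) := by
                  rw [Nat.cast_sum]
                  refine Finset.sum_le_sum fun i hi => ?_
                  rw [Finset.mem_range] at hi
                  have h6 := hRC (x + i * L') L' K R (by omega) (by omega)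
                    (hLK.trans (Nat.le_add_right _ _)) hR1 hRK
                  refine h6.trans ?_
                  have h7 : (((x + i * L' : ℕ) : ℝ)) ^ ε ≤ E := by
                    refine Real.rpow_le_rpow (by positivity) ?_ hε.le
                    have h8 : i * L' ≤ 100 * L' := Nat.mul_le_mul_right _ hi.le
                    have h9 : 100 * L' ≤ L + 100 := by omega
                    have h10 : r ≤ y := le_trans (Nat.le_mul_self r) hr1
                    exact_mod_cast (by omega : x + i * L' ≤ 18 * y)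
                  gcongr
              _ = 100 * (C * E * Real.sqrt R) := by
                  rw [Finset.sum_const, Finset.card_range, nsmul_eq_mul]
                  norm_num
          refine hfin (80000 * C ^ 2 * E ^ 2) (by
            have : 0 ≤ CR ^ 2 * E ^ 2 := by positivity
            nlinarith) ?_
          have hs : Real.sqrt R ^ 2 = R := Real.sq_sqrt (by linarith)
          calc N ^ 2 ≤ (100 * (C * E * Real.sqrt R)) ^ 2 := pow_le_pow_left₀ hN0 hN2 2
            _ = 10000 * C ^ 2 * E ^ 2 * Real.sqrt R ^ 2 := by ring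
            _ = 80000 * C ^ 2 * E ^ 2 * (B * W * Q) := by
                rw [hs, hR]
                ring

theorem t_RC (hRAD : S_RAD) (hRC1 : S_RC1) : S_RC := by
  intro ε hε
  set ε1 : ℝ := ε / 2 with hε1d
  have hε1 : 0 < ε1 := by positivity
  obtain ⟨CR, hCR, hRAD'⟩ := hRAD (ε1 / 2) (by positivity)
  obtain ⟨C, hC, hRC'⟩ := hRC1 (ε1 / 2) (by positivity)
  obtain ⟨C3, hC3, hlog⟩ := log_bound ε1 hε1 4
  set D : ℝ := Real.sqrt (80000 * (CR ^ 2 + C ^ 2)) with hD
  have hD1 : 1 ≤ D := by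
    rw [hD]
    refine Real.le_sqrt_of_sq_le ?_
    nlinarith
  refine ⟨C3 * (3 * D) * (18 : ℝ) ^ ε, one_le_mul_of_one_le_of_one_le
    (one_le_mul_of_one_le_of_one_le hC3 (by linarith)) (Real.one_le_rpow (by norm_num) hε.le), ?_⟩
  intro y x L hy hyx hx8 hL
  have hy1 : (1 : ℝ) ≤ y := by exact_mod_cast hy
  have hy0 : (0 : ℝ) < y := by linarith
  have hLy : L ≤ y := by nlinarith [Nat.zero_le L]
  set M := Nat.log 2 (9 * y) with hM
  set key : ℕ → ℕ × ℕ × ℕ × ℕ := fun n =>
    (Nat.log 2 (tp 1 n), Nat.log 2 (tp 2 n), Nat.log 2 (sp 2 n), Nat.log 2 (rd (sp 2 n))) with hkey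
  set Keys := range (M + 1) ×ˢ range (M + 1) ×ˢ range (M + 1) ×ˢ range (M + 1) with hKeys
  have hIn : ∀ n ∈ Ioc x (x + L), n ≠ 0 ∧ n ≤ 9 * y := by
    intro n hn
    rw [Finset.mem_Ioc] at hn
    exact ⟨by omega, by omega⟩
  have hmaps : ∀ n ∈ Ioc x (x + L), key n ∈ Keys := by
    intro n hn
    obtain ⟨h0, h1⟩ := hIn n hn
    have h2 : rd n ≤ 9 * y := (rd_le h0).trans h1
    have h3 : tp 1 n ≤ 9 * y := by
      have := tp_le 2 n 0
      simp only [Fin.val_zero, zero_add] at this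
      exact this.trans h2
    have h4 : tp 2 n ≤ 9 * y := by
      have := tp_le 2 n 1
      simp only [Fin.val_one] at this
      exact this.trans h2
    have h5 : sp 2 n ≤ 9 * y := (sp_le 2 h0).trans h1
    have h6 : rd (sp 2 n) ≤ 9 * y := (rd_le (sp_pos 2 n).ne').trans h5
    rw [hKeys, Finset.mem_product, Finset.mem_product, Finset.mem_product]
    simp only [hkey, Finset.mem_range]
    exact ⟨Nat.lt_succ_of_le (Nat.log_mono_right h3), Nat.lt_succ_of_le (Nat.log_mono_right h4),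
      Nat.lt_succ_of_le (Nat.log_mono_right h5), Nat.lt_succ_of_le (Nat.log_mono_right h6)⟩
  set F : ℝ := (18 * (y : ℝ)) ^ (ε1 / 2) with hF
  have hF1 : 1 ≤ F := Real.one_le_rpow (by linarith) (by positivity)
  have hclass : ∀ k ∈ Keys, ∑ n ∈ (Ioc x (x + L)).filter (fun n => key n = k),
      Real.sqrt ((n : ℝ) / rd n) ≤ 3 * D * F * Real.sqrt y := by
    rintro ⟨β, ω, γ, κ⟩ -
    set S := (Ioc x (x + L)).filter (fun n => key n = (β, ω, γ, κ)) with hS
    have hSk : ∀ n ∈ S, n ∈ Ioc x (x + L) ∧ Nat.log 2 (tp 1 n) = β ∧ Nat.log 2 (tp 2 n) = ω ∧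
        Nat.log 2 (sp 2 n) = γ ∧ Nat.log 2 (rd (sp 2 n)) = κ := by
      intro n hn
      rw [hS, Finset.mem_filter] at hn
      obtain ⟨h1, h2⟩ := hn
      simp only [hkey, Prod.mk.injEq] at h2
      exact ⟨h1, h2⟩
    have hlg : ∀ {t j : ℕ}, 0 < t → Nat.log 2 t = j → 2 ^ j ≤ t ∧ t < 2 * 2 ^ j := by
      intro t j ht h
      rw [← h]
      refine ⟨Nat.pow_log_le_self 2 ht.ne', ?_⟩
      have := Nat.lt_pow_succ_log_self (b := 2) (by norm_num) t
      rw [Nat.pow_succ] at this
      omega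
    have hcb := class_bound (ε := ε1 / 2) (by positivity) hCR hC hRAD' hRC' hy hyx hx8 hL
      (B := 2 ^ β) (W := 2 ^ ω) (G := 2 ^ γ) (Q := 2 ^ κ) Nat.one_le_two_pow Nat.one_le_two_pow
      Nat.one_le_two_pow Nat.one_le_two_pow S (Finset.filter_subset _ _)
      (fun n hn => hlg (tp_pos _ _) (hSk n hn).2.1)
      (fun n hn => hlg (tp_pos _ _) (hSk n hn).2.2.1)
      (fun n hn => hlg (sp_pos _ _) (hSk n hn).2.2.2.1)
      (fun n hn => hlg (rd_pos _) (hSk n hn).2.2.2.2)
    set P : ℝ := ((2 ^ β : ℕ) : ℝ) * ((2 ^ ω : ℕ) : ℝ) * ((2 ^ κ : ℕ) : ℝ) with hP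
    have hP0 : 0 < P := by positivity
    have hN : (S.card : ℝ) ≤ D * F * Real.sqrt P := by
      have h1 : (S.card : ℝ) = Real.sqrt ((S.card : ℝ) ^ 2) := (Real.sqrt_sq (by positivity)).symm
      rw [h1]
      refine (Real.sqrt_le_sqrt hcb).trans (le_of_eq ?_)
      rw [Real.sqrt_mul (by positivity), Real.sqrt_mul (by positivity), Real.sqrt_sq (by linarith)]
    have hterm : ∀ n ∈ S, Real.sqrt ((n : ℝ) / rd n) ≤ 3 * Real.sqrt y / Real.sqrt P := by
      intro n hn
      obtain ⟨h1, h2, h3, h4, h5⟩ := hSk n hn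
      obtain ⟨h6, h7⟩ := hIn n h1
      have h8 : P ≤ rd n := by
        rw [hP, rd2 n]
        have e1 := (hlg (tp_pos _ _) h2).1
        have e2 := (hlg (tp_pos _ _) h3).1
        have e3 := (hlg (rd_pos _) h5).1
        have e4 : 2 ^ β * 2 ^ ω * 2 ^ κ ≤ rd (sp 2 n) * (tp 1 n * tp 2 n) := by
          calc 2 ^ β * 2 ^ ω * 2 ^ κ ≤ tp 1 n * tp 2 n * rd (sp 2 n) := by gcongr
            _ = _ := by ring
        exact_mod_cast e4
      have h9 : (n : ℝ) ≤ 9 * y := by exact_mod_cast h7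
      have h10 : (3 : ℝ) * Real.sqrt y / Real.sqrt P = Real.sqrt (9 * y / P) := by
        have : Real.sqrt 9 = 3 := by
          rw [show (9 : ℝ) = 3 ^ 2 by norm_num, Real.sqrt_sq (by norm_num)]
        rw [Real.sqrt_div (by positivity), Real.sqrt_mul (x := 9) (by norm_num), this]
      rw [h10]
      refine Real.sqrt_le_sqrt ?_
      gcongr
    calc ∑ n ∈ S, Real.sqrt ((n : ℝ) / rd n) ≤ ∑ _n ∈ S, 3 * Real.sqrt y / Real.sqrt P :=
          Finset.sum_le_sum hterm
      _ = (S.card : ℝ) * (3 * Real.sqrt y / Real.sqrt P) := by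
          rw [Finset.sum_const, nsmul_eq_mul]
      _ ≤ (D * F * Real.sqrt P) * (3 * Real.sqrt y / Real.sqrt P) := by gcongr
      _ = 3 * D * F * Real.sqrt y := by
          have : Real.sqrt P ≠ 0 := (Real.sqrt_pos.2 hP0).ne'
          field_simp
  have hsum : ∑ n ∈ Ioc x (x + L), Real.sqrt ((n : ℝ) / rd n) ≤
      (Keys.card : ℝ) * (3 * D * F * Real.sqrt y) := by
    rw [← Finset.sum_fiberwise_of_maps_to hmaps]
    refine (Finset.sum_le_sum hclass).trans (le_of_eq ?_)
    rw [Finset.sum_const, nsmul_eq_mul]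
  have hKc : (Keys.card : ℝ) ≤ C3 * (18 * (y : ℝ)) ^ ε1 := by
    have h1 : (Keys.card : ℝ) = ((M : ℝ) + 1) ^ 4 := by
      rw [hKeys]
      simp only [Finset.card_product, Finset.card_range]
      push_cast
      ring
    rw [h1]
    refine (hlog M).trans ?_
    have h2 : (2 : ℝ) ^ M ≤ 18 * y := by
      have h3 : 2 ^ M ≤ 9 * y := Nat.pow_log_le_self 2 (by omega)
      exact_mod_cast (by omega : 2 ^ M ≤ 18 * y)
    gcongr
  have hFF : F ≤ (18 * (y : ℝ)) ^ ε1 :=
    Real.rpow_le_rpow_of_exponent_le (by linarith) (by linarith)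
  calc ∑ n ∈ Ioc x (x + L), Real.sqrt ((n : ℝ) / rd n) ≤
      (Keys.card : ℝ) * (3 * D * F * Real.sqrt y) := hsum
    _ ≤ (C3 * (18 * (y : ℝ)) ^ ε1) * (3 * D * (18 * (y : ℝ)) ^ ε1 * Real.sqrt y) := by gcongr
    _ = C3 * (3 * D) * ((18 * (y : ℝ)) ^ ε1 * (18 * (y : ℝ)) ^ ε1) * Real.sqrt y := by ring
    _ = C3 * (3 * D) * (18 * (y : ℝ)) ^ ε * Real.sqrt y := by
        rw [← Real.rpow_add (by positivity)]
        congr 3
        rw [hε1d]
        ring
    _ = C3 * (3 * D) * (18 : ℝ) ^ ε * (y : ℝ) ^ (1 / 2 + ε) := by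
        rw [Real.mul_rpow (by norm_num) hy0.le, Real.sqrt_eq_rpow, Real.rpow_add hy0]
        ring

end Pool.Agent.Q237.KZ
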