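import Pool.Agent.Q237.KZ.Parts

set_option autoImplicit false

/-!
Job KZ-RC1 (project KZ of helper18): integers with a small radical in short intervals.
-/

namespace Pool.Agent.Q237.KZ

open Finset Pool.Agent.Q18.KZ
open scoped Classical

theorem clog_cases {t j : ℕ} (ht : 0 < t) (h : Nat.clog 2 t = j) :
    (j = 0 ∧ t = 1) ∨ (j ≠ 0 ∧ 2 ≤ t ∧ 2 ^ (j - 1) < t ∧ t ≤ 2 ^ j) := by
  by_cases h1 : t = 1
  · subst h1
    left
    rw [← h]
    simp
  · right
    have h2 : 2 ≤ t := by omega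
    have h3 := Nat.clog_pos (b := 2) (by norm_num) h2
    have h4 := Nat.pow_pred_clog_lt_self (b := 2) (by norm_num) (x := t) (by omega)
    have h5 := Nat.le_pow_clog (b := 2) (by norm_num) t
    rw [h] at h3 h4 h5
    exact ⟨by omega, h2, h4, h5⟩

theorem t_RC1 (hAN : S_AN) (hRAD : S_RAD) : S_RC1 := by
  intro ε hε
  set ε1 : ℝ := ε / 6 with hε1d
  have hε1 : 0 < ε1 := by positivity
  obtain ⟨A, hA⟩ := exists_nat_gt (2 / ε)
  have hA1 : 1 / ((A : ℝ) + 1) ≤ ε / 2 := by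
    rw [div_lt_iff₀ hε] at hA
    rw [div_le_div_iff₀ (by positivity) (by norm_num)]
    nlinarith
  obtain ⟨C1, hC1, hAN'⟩ := hAN A A ε1 hε1
  obtain ⟨C2, hC2, hRAD'⟩ := hRAD ε1 hε1
  obtain ⟨C3, hC3, hlog⟩ := log_bound ε1 hε1 A
  have hC12 : 1 ≤ C2 * C3 * C1 := by
    have h1 : 1 ≤ C2 * C3 := one_le_mul_of_one_le_of_one_le hC2 hC3
    exact one_le_mul_of_one_le_of_one_le h1 hC1
  refine ⟨C2 * C3 * C1 * (4 : ℝ) ^ ε, one_le_mul_of_one_le_of_one_le hC12
    (Real.one_le_rpow (by norm_num) hε.le), ?_⟩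
  intro x L K R hx hK hLK hR hRK
  rcases Nat.eq_zero_or_pos L with hL | hL
  · subst hL
    rw [Nat.add_zero, Finset.Ioc_self, Finset.filter_empty, Finset.card_empty, Nat.cast_zero]
    positivity
  have hKx : K ≤ x := (Nat.le_mul_of_pos_left K hL).trans hLK
  have hLx : L ≤ x := (Nat.le_mul_of_pos_right L hK).trans hLK
  have hx1 : (1 : ℝ) ≤ x := by exact_mod_cast hx
  have hx0 : (0 : ℝ) < x := by linarith
  have hK0 : (0 : ℝ) < K := by exact_mod_cast hK
  set S := (Ioc x (x + L)).filter (fun n => (rd n : ℝ) ≤ R) with hS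
  set M := Nat.clog 2 (2 * x) with hM
  set X : ℝ := (2 * (x : ℝ)) ^ (1 / ((A : ℝ) + 1)) with hX
  set SS := (Icc 1 (2 * x)).filter (fun n => (rd n : ℝ) ≤ X) with hSS
  set Keys := SS ×ˢ Fintype.piFinset (fun _ : Fin A => range (M + 1)) with hKeys
  set key : ℕ → ℕ × (Fin A → ℕ) := fun n =>
    (sp A n, fun a => Nat.clog 2 (tp ((a : ℕ) + 1) n)) with hkey
  have hSn : ∀ n ∈ S, n ≠ 0 ∧ n ≤ 2 * x ∧ (rd n : ℝ) ≤ R ∧ x < n ∧ n ≤ x + L := by
    intro n hn
    rw [hS, Finset.mem_filter, Finset.mem_Ioc] at hn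
    exact ⟨by omega, by omega, hn.2, hn.1.1, hn.1.2⟩
  have hmaps : ∀ n ∈ S, key n ∈ Keys := by
    intro n hn
    obtain ⟨hn0, hn2, hnR, -, -⟩ := hSn n hn
    rw [hKeys, Finset.mem_product]
    constructor
    · rw [hSS, Finset.mem_filter, Finset.mem_Icc]
      refine ⟨⟨sp_pos A n, (sp_le A hn0).trans hn2⟩, ?_⟩
      have h1 : ((rd (sp A n) : ℝ)) ^ (A + 1) ≤ 2 * (x : ℝ) := by
        have := (rd_sp_pow A n).trans ((sp_le A hn0).trans hn2)
        exact_mod_cast this
      calc (rd (sp A n) : ℝ) = ((rd (sp A n) : ℝ) ^ (A + 1)) ^ (1 / ((A : ℝ) + 1)) := by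
            rw [← Real.rpow_natCast, ← Real.rpow_mul (by positivity)]
            push_cast
            rw [mul_one_div_cancel (by positivity), Real.rpow_one]
        _ ≤ X := Real.rpow_le_rpow (by positivity) h1 (by positivity)
    · rw [Fintype.mem_piFinset]
      intro a
      rw [Finset.mem_range]
      have h1 : Nat.clog 2 (tp ((a : ℕ) + 1) n) ≤ M :=
        Nat.clog_mono_right 2 ((tp_le A n a).trans ((rd_le hn0).trans hn2))
      show Nat.clog 2 (tp ((a : ℕ) + 1) n) < M + 1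
      omega
  have hfib : ∀ b ∈ Keys, ((S.filter (fun n => key n = b)).card : ℝ) ≤
      C1 * (K : ℝ) ^ ε1 * Real.sqrt R := by
    rintro ⟨s, j⟩ -
    rcases (S.filter (fun n => key n = (s, j))).eq_empty_or_nonempty with he | ⟨n₀, hn₀⟩
    · rw [he, Finset.card_empty, Nat.cast_zero]
      positivity
    have hfn : ∀ n ∈ S.filter (fun n => key n = (s, j)), n ∈ S ∧ sp A n = s ∧
        ∀ a : Fin A, Nat.clog 2 (tp ((a : ℕ) + 1) n) = j a := by
      intro n hn
      rw [Finset.mem_filter] at hn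
      have h1 : sp A n = s := congrArg Prod.fst hn.2
      have h2 : (fun a : Fin A => Nat.clog 2 (tp ((a : ℕ) + 1) n)) = j := congrArg Prod.snd hn.2
      exact ⟨hn.1, h1, fun a => congrFun h2 a⟩
    set T : Fin A → ℕ := fun a => 2 ^ (j a - 1) with hT
    set e : Fin A → ℕ := fun a => (a : ℕ) + 1 with he
    set D : ℕ := ∏ a : Fin A, (if j a = 0 then 2 ^ ((a : ℕ) + 1) else 1) with hD
    have hD0 : 0 < D := Finset.prod_pos fun a _ => by split_ifs <;> positivity
    have hTt : ∀ n ∈ S.filter (fun n => key n = (s, j)), ∀ a : Fin A,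
        T a ≤ tp ((a : ℕ) + 1) n := by
      intro n hn a
      obtain ⟨-, -, h3⟩ := hfn n hn
      rcases clog_cases (tp_pos _ _) (h3 a) with ⟨h4, h5⟩ | ⟨h4, h5, h6, h7⟩
      · simp only [hT]
        rw [h4, h5]
        norm_num
      · exact h6.le
    have hTR : (((∏ a, T a : ℕ) : ℝ)) ≤ R := by
      obtain ⟨h1, -, -⟩ := hfn n₀ hn₀
      have h2 : ∏ a, T a ≤ rd n₀ :=
        (Finset.prod_le_prod' fun a _ => hTt n₀ hn₀ a).trans (prod_tp_le A n₀)
      exact (Nat.cast_le.2 h2).trans (hSn n₀ h1).2.2.1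
    have hs1 : 1 ≤ s := by
      obtain ⟨-, h2, -⟩ := hfn n₀ hn₀
      rw [← h2]
      exact sp_pos _ _
    have hpK : ∏ a, T a ≤ K := by
      have := hTR.trans hRK
      exact_mod_cast this
    have h1 := hAN' K s (x * D) (L * D) T e hK hs1 (Nat.mul_pos hx hD0)
      (fun a => Nat.one_le_two_pow) (fun a => ⟨by simp [he], by simp only [he]; have := a.2; omega⟩)
      hpK (by
        calc L * D * K = L * K * D := by ring
          _ ≤ x * D := Nat.mul_le_mul_right _ hLK)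
    have h2 : (S.filter (fun n => key n = (s, j))).card ≤
        ((Fintype.piFinset (fun a => Ioc (T a) (2 * T a))).filter
          (fun t : Fin A → ℕ => s * ∏ a : Fin A, t a ^ e a ∈ Ioc (x * D) (x * D + L * D))).card := by
      have hprod : ∀ n ∈ S.filter (fun n => key n = (s, j)),
          s * ∏ a : Fin A, (max 2 (tp ((a : ℕ) + 1) n)) ^ e a = n * D := by
        intro n hn
        obtain ⟨h3, h4, h5⟩ := hfn n hn
        have h6 := sp_mul A (hSn n h3).1
        rw [h4] at h6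
        conv_rhs => rw [← h6]
        rw [mul_assoc, hD, ← Finset.prod_mul_distrib]
        congr 1
        refine Finset.prod_congr rfl fun a _ => ?_
        rcases clog_cases (tp_pos _ _) (h5 a) with ⟨h7, h8⟩ | ⟨h7, h8, h9, h10⟩
        · rw [h8, if_pos h7]
          simp [he]
        · rw [if_neg h7, max_eq_right h8, mul_one]
      refine Finset.card_le_card_of_injOn
        (fun n => fun a : Fin A => max 2 (tp ((a : ℕ) + 1) n)) ?_ ?_
      · intro n hn
        have hn' : n ∈ S.filter (fun n => key n = (s, j)) := hn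
        obtain ⟨h3, h4, h5⟩ := hfn n hn'
        obtain ⟨-, -, -, h6, h7⟩ := hSn n h3
        show _ ∈ (((Fintype.piFinset (fun a => Ioc (T a) (2 * T a))).filter
          (fun t : Fin A → ℕ => s * ∏ a : Fin A, t a ^ e a ∈ Ioc (x * D) (x * D + L * D)) :
            Finset (Fin A → ℕ)) : Set (Fin A → ℕ))
        rw [Finset.mem_coe, Finset.mem_filter, Fintype.mem_piFinset]
        refine ⟨fun a => ?_, ?_⟩
        · rw [Finset.mem_Ioc]
          show T a < max 2 (tp ((a : ℕ) + 1) n) ∧ max 2 (tp ((a : ℕ) + 1) n) ≤ 2 * T a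
          rcases clog_cases (tp_pos _ _) (h5 a) with ⟨h7, h8⟩ | ⟨h7, h8, h9, h10⟩
          · simp only [hT]
            rw [h7, h8]
            norm_num
          · rw [max_eq_right h8]
            refine ⟨h9, h10.trans (le_of_eq ?_)⟩
            simp only [hT]
            rw [← pow_succ']
            congr 1
            omega
        · show s * ∏ a : Fin A, (max 2 (tp ((a : ℕ) + 1) n)) ^ e a ∈ Ioc (x * D) (x * D + L * D)
          rw [hprod n hn', Finset.mem_Ioc]
          constructor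
          · exact Nat.mul_lt_mul_of_pos_right h6 hD0
          · rw [← Nat.add_mul]
            exact Nat.mul_le_mul_right _ h7
      · intro n hn n' hn' hnn
        have h3 := hprod n hn
        have h4 := hprod n' hn'
        have h5 : ∀ a : Fin A, max 2 (tp ((a : ℕ) + 1) n) = max 2 (tp ((a : ℕ) + 1) n') :=
          fun a => congrFun hnn a
        rw [Finset.prod_congr rfl fun a _ => by rw [h5 a]] at h3
        rw [h4] at h3
        exact (Nat.eq_of_mul_eq_mul_right hD0 h3).symm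
    refine (Nat.cast_le.2 h2).trans (h1.trans ?_)
    refine mul_le_mul_of_nonneg_left (Real.sqrt_le_sqrt hTR) (by positivity)
  have hcard : (S.card : ℝ) ≤ (Keys.card : ℝ) * (C1 * (K : ℝ) ^ ε1 * Real.sqrt R) := by
    rw [Finset.card_eq_sum_card_fiberwise hmaps, Nat.cast_sum]
    refine (Finset.sum_le_sum hfib).trans (le_of_eq ?_)
    rw [Finset.sum_const, nsmul_eq_mul]
  have h4x : (1 : ℝ) ≤ 4 * x := by linarith
  have hSSc : (SS.card : ℝ) ≤ C2 * (4 * (x : ℝ)) ^ (1 / ((A : ℝ) + 1)) * (4 * (x : ℝ)) ^ ε1 := by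
    have h1 := hRAD' (2 * x) X (by omega) (by positivity)
    refine h1.trans ?_
    have h2 : X ≤ (4 * (x : ℝ)) ^ (1 / ((A : ℝ) + 1)) :=
      Real.rpow_le_rpow (by positivity) (by linarith) (by positivity)
    have h3 : (((2 * x : ℕ) : ℝ)) ^ ε1 ≤ (4 * (x : ℝ)) ^ ε1 := by
      refine Real.rpow_le_rpow (by positivity) ?_ hε1.le
      push_cast
      linarith
    gcongr
  have hMc : ((M : ℝ) + 1) ^ A ≤ C3 * (4 * (x : ℝ)) ^ ε1 := by
    refine (hlog M).trans ?_
    have h1 : (2 : ℝ) ^ M ≤ 4 * x := by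
      have h2 := Nat.pow_pred_clog_lt_self (b := 2) (by norm_num) (x := 2 * x) (by omega)
      have h3 := Nat.clog_pos (b := 2) (n := 2 * x) (by norm_num) (by omega)
      rw [← hM] at h2 h3
      have h4 : 2 ^ M ≤ 4 * x := by
        obtain ⟨M', hM'⟩ : ∃ M', M = M' + 1 := ⟨M - 1, by omega⟩
        rw [hM'] at h2 ⊢
        rw [pow_succ]
        have h5 : (M' + 1).pred = M' := rfl
        rw [h5] at h2
        omega
      exact_mod_cast h4
    gcongr
  have hKeysc : (Keys.card : ℝ) ≤ (C2 * (4 * (x : ℝ)) ^ (1 / ((A : ℝ) + 1)) *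
      (4 * (x : ℝ)) ^ ε1) * (C3 * (4 * (x : ℝ)) ^ ε1) := by
    rw [hKeys, Finset.card_product, Fintype.card_piFinset_const, Finset.card_range]
    push_cast
    refine mul_le_mul hSSc ?_ (by positivity) (by positivity)
    simpa using hMc
  have hKe : (K : ℝ) ^ ε1 ≤ (4 * (x : ℝ)) ^ ε1 := by
    refine Real.rpow_le_rpow hK0.le ?_ hε1.le
    have : (K : ℝ) ≤ x := by exact_mod_cast hKx
    linarith
  calc (S.card : ℝ) ≤ (Keys.card : ℝ) * (C1 * (K : ℝ) ^ ε1 * Real.sqrt R) := hcard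
    _ ≤ ((C2 * (4 * (x : ℝ)) ^ (1 / ((A : ℝ) + 1)) * (4 * (x : ℝ)) ^ ε1) *
          (C3 * (4 * (x : ℝ)) ^ ε1)) * (C1 * (4 * (x : ℝ)) ^ ε1 * Real.sqrt R) := by
        gcongr
    _ = C2 * C3 * C1 * ((4 * (x : ℝ)) ^ (1 / ((A : ℝ) + 1)) * (4 * (x : ℝ)) ^ ε1 *
          (4 * (x : ℝ)) ^ ε1 * (4 * (x : ℝ)) ^ ε1) * Real.sqrt R := by ring
    _ = C2 * C3 * C1 * ((4 * (x : ℝ)) ^ (1 / ((A : ℝ) + 1) + ε1 + ε1 + ε1)) * Real.sqrt R := by
        rw [Real.rpow_add (by positivity), Real.rpow_add (by positivity),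
          Real.rpow_add (by positivity)]
    _ ≤ C2 * C3 * C1 * ((4 * (x : ℝ)) ^ ε) * Real.sqrt R := by
        have h1 : (4 * (x : ℝ)) ^ (1 / ((A : ℝ) + 1) + ε1 + ε1 + ε1) ≤ (4 * (x : ℝ)) ^ ε := by
          refine Real.rpow_le_rpow_of_exponent_le h4x ?_
          rw [hε1d]
          linarith
        gcongr
    _ = C2 * C3 * C1 * (4 : ℝ) ^ ε * (x : ℝ) ^ ε * Real.sqrt R := by
        rw [Real.mul_rpow (by norm_num) hx0.le]
        ring

end Pool.Agent.Q237.KZ
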