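import Pool.Agent.Q18.KZ.S1

set_option autoImplicit false

/-!
Parts of an integer by the exponents of its primes (for the jobs KZ-RC1 and KZ-RC).
-/

namespace Pool.Agent.Q237.KZ

open Finset Pool.Agent.Q18.KZ

/-- product of the primes that divide `n` exactly `a` times -/
def tp (a n : ℕ) : ℕ := ∏ p ∈ n.primeFactors.filter (fun p => n.factorization p = a), p

/-- the part of `n` with exponents larger than `A` -/
def sp (A n : ℕ) : ℕ :=
  ∏ p ∈ n.primeFactors.filter (fun p => A < n.factorization p), p ^ n.factorization p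

theorem split_prod (A n : ℕ) (f : ℕ → ℕ) : ∏ p ∈ n.primeFactors, f p =
    (∏ p ∈ n.primeFactors.filter (fun p => A < n.factorization p), f p) *
      ∏ a : Fin A, ∏ p ∈ n.primeFactors.filter (fun p => n.factorization p = (a : ℕ) + 1), f p := by
  rw [← Finset.prod_filter_mul_prod_filter_not n.primeFactors (fun p => A < n.factorization p)]
  congr 1
  rw [Fin.prod_univ_eq_prod_range (fun a => ∏ p ∈ n.primeFactors.filter
    (fun p => n.factorization p = a + 1), f p) A]
  have h1 : ∀ p ∈ n.primeFactors.filter (fun p => ¬ A < n.factorization p),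
      n.factorization p - 1 ∈ range A := by
    intro p hp
    rw [Finset.mem_filter] at hp
    have h2 : n.factorization p ≠ 0 := by
      rw [← Nat.support_factorization] at hp
      exact Finsupp.mem_support_iff.1 hp.1
    rw [Finset.mem_range]
    omega
  rw [← Finset.prod_fiberwise_of_maps_to h1]
  refine Finset.prod_congr rfl fun a ha => ?_
  rw [Finset.mem_range] at ha
  refine Finset.prod_congr ?_ fun _ _ => rfl
  ext p
  simp only [Finset.mem_filter]
  constructor
  · rintro ⟨⟨hp, h2⟩, h3⟩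
    have h4 : n.factorization p ≠ 0 := by
      rw [← Nat.support_factorization] at hp
      exact Finsupp.mem_support_iff.1 hp
    exact ⟨hp, by omega⟩
  · rintro ⟨hp, h2⟩
    exact ⟨⟨hp, by omega⟩, by omega⟩

theorem prod_primeFactors {n : ℕ} (hn : n ≠ 0) :
    ∏ p ∈ n.primeFactors, p ^ n.factorization p = n := by
  have := Nat.prod_factorization_pow_eq_self hn
  exact this

theorem sp_mul (A : ℕ) {n : ℕ} (hn : n ≠ 0) :
    sp A n * ∏ a : Fin A, tp ((a : ℕ) + 1) n ^ ((a : ℕ) + 1) = n := by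
  have h := split_prod A n (fun p => p ^ n.factorization p)
  rw [prod_primeFactors hn] at h
  refine Eq.trans ?_ h.symm
  unfold sp
  congr 1
  refine Finset.prod_congr rfl fun a _ => ?_
  unfold tp
  rw [← Finset.prod_pow]
  refine Finset.prod_congr rfl fun p hp => ?_
  rw [(Finset.mem_filter.1 hp).2]

theorem pf_prod_pow (S : Finset ℕ) (e : ℕ → ℕ) (hS : ∀ p ∈ S, p.Prime) (he : ∀ p ∈ S, e p ≠ 0) :
    (∏ p ∈ S, p ^ e p).primeFactors = S := by
  induction S using Finset.induction_on with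
  | empty => simp
  | insert p S hp ih =>
    rw [Finset.prod_insert hp, Nat.primeFactors_mul (pow_ne_zero _ (hS p (by simp)).ne_zero)
      (Finset.prod_ne_zero_iff.2 fun q hq => pow_ne_zero _ (hS q (by simp [hq])).ne_zero),
      Nat.primeFactors_prime_pow (he p (by simp)) (hS p (by simp)),
      ih (fun q hq => hS q (by simp [hq])) (fun q hq => he q (by simp [hq]))]
    rfl

theorem pf_sp (A n : ℕ) : (sp A n).primeFactors =
    n.primeFactors.filter (fun p => A < n.factorization p) := by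
  refine pf_prod_pow _ _ (fun p hp => ?_) fun p hp => ?_
  · exact Nat.prime_of_mem_primeFactors (Finset.mem_filter.1 hp).1
  · have := (Finset.mem_filter.1 hp).2
    omega

theorem rd_sp (A n : ℕ) : rd (sp A n) =
    ∏ p ∈ n.primeFactors.filter (fun p => A < n.factorization p), p := by
  unfold rd
  rw [pf_sp]

theorem rd_eq (A n : ℕ) : rd n = rd (sp A n) * ∏ a : Fin A, tp ((a : ℕ) + 1) n := by
  rw [rd_sp]
  exact split_prod A n fun p => p

theorem rd_sp_pow (A n : ℕ) : rd (sp A n) ^ (A + 1) ≤ sp A n := by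
  rw [rd_sp, ← Finset.prod_pow]
  unfold sp
  refine Finset.prod_le_prod' fun p hp => ?_
  rw [Finset.mem_filter] at hp
  exact Nat.pow_le_pow_right (Nat.prime_of_mem_primeFactors hp.1).pos hp.2

theorem sp_pos (A n : ℕ) : 0 < sp A n := Finset.prod_pos fun p hp =>
  pow_pos (Nat.prime_of_mem_primeFactors (Finset.mem_filter.1 hp).1).pos _

theorem tp_pos (a n : ℕ) : 0 < tp a n := Finset.prod_pos fun p hp =>
  (Nat.prime_of_mem_primeFactors (Finset.mem_filter.1 hp).1).pos

theorem rd_pos (n : ℕ) : 0 < rd n := Finset.prod_pos fun p hp =>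
  (Nat.prime_of_mem_primeFactors hp).pos

theorem sp_le (A : ℕ) {n : ℕ} (hn : n ≠ 0) : sp A n ≤ n := by
  conv_rhs => rw [← sp_mul A hn]
  refine Nat.le_mul_of_pos_right _ (Finset.prod_pos fun a _ => pow_pos (tp_pos _ _) _)

theorem prod_tp_le (A n : ℕ) : ∏ a : Fin A, tp ((a : ℕ) + 1) n ≤ rd n := by
  rw [rd_eq A n]
  exact Nat.le_mul_of_pos_left _ (rd_pos _)

theorem tp_le (A n : ℕ) (a : Fin A) : tp ((a : ℕ) + 1) n ≤ rd n :=
  (Nat.le_of_dvd (Finset.prod_pos fun _ _ => tp_pos _ _)
    (Finset.dvd_prod_of_mem (fun a : Fin A => tp ((a : ℕ) + 1) n) (Finset.mem_univ a))).trans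
    (prod_tp_le A n)

theorem rd_le {n : ℕ} (hn : n ≠ 0) : rd n ≤ n :=
  Nat.le_of_dvd (Nat.pos_of_ne_zero hn) (Nat.prod_primeFactors_dvd n)

/-- a logarithm is smaller than every power -/
theorem log_bound (δ : ℝ) (hδ : 0 < δ) (A : ℕ) : ∃ C : ℝ, 1 ≤ C ∧ ∀ M : ℕ,
    ((M : ℝ) + 1) ^ A ≤ C * ((2 : ℝ) ^ M) ^ δ := by
  have hA : (0 : ℝ) < (A : ℝ) + 1 := by positivity
  have hl : 0 < Real.log 2 := Real.log_pos (by norm_num)
  set c : ℝ := δ / (A + 1) * Real.log 2 with hc
  have hc0 : 0 < c := by positivity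
  refine ⟨(1 / c + 1) ^ (A + 1), one_le_pow₀ (by
    have : 0 < 1 / c := by positivity
    linarith), fun M => ?_⟩
  have h1 : (M : ℝ) + 1 ≤ (1 / c + 1) * Real.exp (c * M) := by
    have h2 := Real.add_one_le_exp (c * M)
    have h3 : 1 ≤ Real.exp (c * M) := Real.one_le_exp (by positivity)
    have h4 : (M : ℝ) ≤ 1 / c * Real.exp (c * M) := by
      rw [div_mul_eq_mul_div, one_mul, le_div_iff₀ hc0]
      linarith
    linarith
  have h5 : ((M : ℝ) + 1) ^ A ≤ ((M : ℝ) + 1) ^ (A + 1) := by
    refine pow_le_pow_right₀ ?_ (by omega)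
    have : (0 : ℝ) ≤ M := by positivity
    linarith
  refine h5.trans ?_
  calc ((M : ℝ) + 1) ^ (A + 1) ≤ ((1 / c + 1) * Real.exp (c * M)) ^ (A + 1) :=
        pow_le_pow_left₀ (by positivity) h1 _
    _ = (1 / c + 1) ^ (A + 1) * ((2 : ℝ) ^ M) ^ δ := by
        rw [mul_pow, ← Real.exp_nat_mul]
        congr 1
        rw [← Real.rpow_natCast 2 M, ← Real.rpow_mul (by norm_num),
          Real.rpow_def_of_pos (by norm_num)]
        congr 1
        rw [hc]
        push_cast
        field_simp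

end Pool.Agent.Q237.KZ
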